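import Mathlib

set_option autoImplicit false

/-! The patterns 1121 and 1211 are `k`-Wilf equivalent for every `k`. -/

namespace Pool.Agent.Results.MP_2348bc_co.AllKWilf

open Finset

/-- `w` is a restricted growth function: letters are positive and
`w i ≤ 1 + max {w j : j < i}` (so the first letter is `1`). -/
def IsRGF {n : ℕ} (w : Fin n → ℕ) : Prop :=
  ∀ i, 1 ≤ w i ∧ w i ≤ 1 + (Finset.univ.filter (fun j => j < i)).sup w

open Classical in
/-- the number of copies of the pattern `v` in `w`: the number of strictly increasing choices of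
positions on which `w` is in the same relative order as `v` -/
noncomputable def copies {m n : ℕ} (v : Fin m → ℕ) (w : Fin n → ℕ) : ℕ :=
  (Finset.univ.filter (fun f : Fin m → Fin n => StrictMono f ∧
    ∀ a b, (w (f a) < w (f b) ↔ v a < v b) ∧ (w (f a) = w (f b) ↔ v a = v b))).card

/-- `R_{n,k}(v)`: the restricted growth functions of length `n` with exactly `k` copies of `v` -/
def R {m : ℕ} (n k : ℕ) (v : Fin m → ℕ) : Set (Fin n → ℕ) := {w | IsRGF w ∧ copies v w = k}

lemma exists_before {n : ℕ} {w : Fin n → ℕ} (hw : IsRGF w) {x : ℕ} (hx : 1 ≤ x) :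
    ∀ j : Fin n, x < w j → ∃ i < j, w i = x := by
  intro j
  induction j using WellFoundedLT.induction with
  | _ j ih =>
    intro hj
    obtain ⟨-, h2⟩ := hw j
    have hne : (Finset.univ.filter (fun i => i < j)).Nonempty := by
      by_contra h
      rw [Finset.not_nonempty_iff_eq_empty] at h
      rw [h, Finset.sup_empty] at h2
      simp at h2; omega
    obtain ⟨i, hi, hsup⟩ := Finset.exists_mem_eq_sup _ hne w
    rw [Finset.mem_filter] at hi
    rw [hsup] at h2
    by_cases h : w i = x
    · exact ⟨i, hi.2, h⟩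
    · obtain ⟨i', hi', h'⟩ := ih i hi.2 (by omega)
      exact ⟨i', hi'.trans hi.2, h'⟩

lemma isRGF_iff {n : ℕ} (w : Fin n → ℕ) :
    IsRGF w ↔ (∀ i, 1 ≤ w i) ∧ ∀ i x, 1 ≤ x → x < w i → ∃ j < i, w j = x := by
  constructor
  · intro h
    exact ⟨fun i => (h i).1, fun i x hx hi => exists_before h hx i hi⟩
  · rintro ⟨h1, h2⟩ i
    refine ⟨h1 i, ?_⟩
    by_cases h : w i ≤ 1
    · exact h.trans (Nat.le_add_right _ _)
    · obtain ⟨j, hj, hjw⟩ := h2 i (w i - 1) (by omega) (by omega)
      have : w j ≤ (Finset.univ.filter (fun j => j < i)).sup w :=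
        Finset.le_sup (f := w) (by simpa using hj)
      omega

/-- restricted growth functions as a type -/
abbrev RG (n : ℕ) := {w : Fin n → ℕ // IsRGF w}

section Split

variable {n : ℕ}

/-- sets of positions of the letter 1 -/
abbrev QQ (n : ℕ) := {Q : Finset (Fin (n + 1)) // (0 : Fin (n + 1)) ∈ Q}

/-- the increasing enumeration of the complement -/
noncomputable def emb (Q : Finset (Fin (n + 1))) : Fin (Qᶜ.card) ↪o Fin (n + 1) :=
  Qᶜ.orderEmbOfFin rfl

lemma emb_not_mem (Q : Finset (Fin (n + 1))) (i : Fin (Qᶜ.card)) : emb Q i ∉ Q := by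
  have := Finset.orderEmbOfFin_mem Qᶜ rfl i
  rwa [Finset.mem_compl] at this

lemma exists_emb (Q : Finset (Fin (n + 1))) {j : Fin (n + 1)} (hj : j ∉ Q) :
    ∃ i, emb Q i = j := by
  have : j ∈ Set.range (Qᶜ.orderEmbOfFin rfl) := by
    rw [Finset.range_orderEmbOfFin]
    simpa using hj
  exact this

open Classical in
/-- the word with letter 1 on `Q` and the letters of `u`, raised by 1, elsewhere -/
noncomputable def merge (Q : Finset (Fin (n + 1))) (u : Fin (Qᶜ.card) → ℕ) : Fin (n + 1) → ℕ :=
  fun j => if h : j ∈ Q then 1 else u (exists_emb Q h).choose + 1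

lemma merge_mem (Q : Finset (Fin (n + 1))) (u : Fin (Qᶜ.card) → ℕ) {j : Fin (n + 1)}
    (hj : j ∈ Q) : merge Q u j = 1 := by
  unfold merge; rw [dif_pos hj]

lemma merge_emb (Q : Finset (Fin (n + 1))) (u : Fin (Qᶜ.card) → ℕ) (i : Fin (Qᶜ.card)) :
    merge Q u (emb Q i) = u i + 1 := by
  unfold merge
  rw [dif_neg (emb_not_mem Q i)]
  have := (exists_emb Q (emb_not_mem Q i)).choose_spec
  rw [(emb Q).injective this]

lemma merge_RGF (Q : Finset (Fin (n + 1))) (hQ : 0 ∈ Q) (u : Fin (Qᶜ.card) → ℕ)
    (hu : IsRGF u) : IsRGF (merge Q u) := by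
  rw [isRGF_iff] at hu ⊢
  obtain ⟨h1, h2⟩ := hu
  refine ⟨?_, ?_⟩
  · intro i
    by_cases h : i ∈ Q
    · rw [merge_mem Q u h]
    · obtain ⟨a, rfl⟩ := exists_emb Q h
      rw [merge_emb]; omega
  · intro i x hx hi
    by_cases h : i ∈ Q
    · rw [merge_mem Q u h] at hi; omega
    · obtain ⟨a, rfl⟩ := exists_emb Q h
      rw [merge_emb] at hi
      by_cases hx1 : x = 1
      · refine ⟨0, ?_, by rw [merge_mem Q u hQ, hx1]⟩
        refine lt_of_le_of_ne (Fin.zero_le _) (fun h' => h ?_)
        rw [← h']; exact hQ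
      · obtain ⟨b, hb, hbx⟩ := h2 a (x - 1) (by omega) (by omega)
        refine ⟨emb Q b, (emb Q).strictMono hb, ?_⟩
        rw [merge_emb, hbx]; omega

lemma merge_bijective : Function.Bijective
    (fun p : Σ Q : QQ n, RG ((Q.1)ᶜ.card) =>
      (⟨merge p.1.1 p.2.1, merge_RGF p.1.1 p.1.2 p.2.1 p.2.2⟩ : RG (n + 1))) := by
  constructor
  · rintro ⟨⟨Q, hQ⟩, ⟨u, hu⟩⟩ ⟨⟨Q', hQ'⟩, ⟨u', hu'⟩⟩ h
    simp only [Subtype.mk.injEq] at h
    have key : ∀ (Q : Finset (Fin (n + 1))) (u : Fin (Qᶜ.card) → ℕ), IsRGF u →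
        ∀ j, j ∈ Q ↔ merge Q u j = 1 := by
      intro Q u hu j
      constructor
      · exact merge_mem Q u
      · intro hj
        by_contra h
        obtain ⟨a, rfl⟩ := exists_emb Q h
        rw [merge_emb] at hj
        have := (hu a).1
        omega
    have hQQ : Q = Q' := by
      ext j
      rw [key Q u hu, key Q' u' hu', h]
    subst hQQ
    have huu : u = u' := by
      funext i
      have := congrFun h (emb Q i)
      rw [merge_emb, merge_emb] at this
      omega
    subst huu
    rfl
  · rintro ⟨w, hw⟩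
    have hw' := (isRGF_iff w).1 hw
    have h0 : w 0 = 1 := by
      have := hw 0
      have h2 : (Finset.univ.filter (fun j : Fin (n + 1) => j < 0)) = ∅ := by
        ext j; simp
      rw [h2, Finset.sup_empty] at this
      simp at this; omega
    set Q : Finset (Fin (n + 1)) := Finset.univ.filter (fun j => w j = 1) with hQ
    have hmem : ∀ j, j ∈ Q ↔ w j = 1 := by intro j; simp [hQ]
    have hge : ∀ i, 2 ≤ w (emb Q i) := by
      intro i
      have h1 := hw'.1 (emb Q i)
      have h2 := emb_not_mem Q i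
      rw [hmem] at h2
      omega
    have hu : IsRGF (fun i => w (emb Q i) - 1) := by
      rw [isRGF_iff]
      refine ⟨fun i => by have := hge i; omega, ?_⟩
      intro i x hx hi
      obtain ⟨j, hj, hjx⟩ := hw'.2 (emb Q i) (x + 1) (by omega) (by omega)
      have hjQ : j ∉ Q := by rw [hmem]; omega
      obtain ⟨a, rfl⟩ := exists_emb Q hjQ
      exact ⟨a, (emb Q).lt_iff_lt.1 hj, by rw [hjx]; rfl⟩
    refine ⟨⟨⟨Q, (hmem 0).2 h0⟩, ⟨_, hu⟩⟩, ?_⟩
    apply Subtype.ext
    funext j
    by_cases h : j ∈ Q
    · simp only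
      rw [merge_mem Q _ h, (hmem j).1 h]
    · obtain ⟨a, rfl⟩ := exists_emb Q h
      simp only
      rw [merge_emb]
      have := hge a
      omega

open Classical in
/-- copies using the letter 1 -/
noncomputable def cc (v : Fin 4 → ℕ) (Q : Finset (Fin (n + 1))) : ℕ :=
  (Finset.univ.filter (fun f : Fin 4 → Fin (n + 1) => StrictMono f ∧
    ∀ a, f a ∈ Q ↔ v a = 1)).card

/-- the pattern 1121 -/
def v1 : Fin 4 → ℕ := ![1, 1, 2, 1]

/-- the pattern 1211 -/
def v2 : Fin 4 → ℕ := ![1, 2, 1, 1]

/-- patterns with a unique letter 2, and ones elsewhere -/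
def Good (v : Fin 4 → ℕ) : Prop := v 0 = 1 ∧ ∃ c, v c = 2 ∧ ∀ a, a ≠ c → v a = 1

lemma good1 : Good v1 := ⟨rfl, 2, rfl, by decide⟩
lemma good2 : Good v2 := ⟨rfl, 1, rfl, by decide⟩

lemma copies_merge (v : Fin 4 → ℕ) (hv : Good v) (Q : Finset (Fin (n + 1)))
    (u : Fin (Qᶜ.card) → ℕ) (hu : IsRGF u) :
    copies v (merge Q u) = cc v Q + copies v u := by
  classical
  obtain ⟨h0, c, hc, hv'⟩ := hv
  have hv12 : ∀ a, v a = 1 ∨ v a = 2 := fun a => by
    by_cases h : a = c
    · right; rw [h]; exact hc
    · left; exact hv' a h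
  have hu1 : ∀ i, 1 ≤ u i := fun i => (hu i).1
  unfold copies cc
  set A := Finset.univ.filter (fun f : Fin 4 → Fin (n + 1) => StrictMono f ∧
    ∀ a, f a ∈ Q ↔ v a = 1) with hA
  set B := Finset.univ.filter (fun f : Fin 4 → Fin (Qᶜ.card) => StrictMono f ∧
    ∀ a b, (u (f a) < u (f b) ↔ v a < v b) ∧ (u (f a) = u (f b) ↔ v a = v b)) with hB
  have hcard : (B.image (fun f a => emb Q (f a))).card = B.card := by
    apply Finset.card_image_of_injective
    intro f g h
    funext a
    exact (emb Q).injective (congrFun h a)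
  rw [← hcard, ← Finset.card_union_of_disjoint]
  · congr 1
    ext f
    simp only [Finset.mem_filter, Finset.mem_univ, true_and, Finset.mem_union, Finset.mem_image,
      hA, hB]
    constructor
    · rintro ⟨hf, hord⟩
      by_cases hall : ∀ a, f a ∉ Q
      · right
        choose g hg using fun a => exists_emb Q (hall a)
        refine ⟨g, ⟨?_, ?_⟩, funext hg⟩
        · intro a b hab
          rw [← (emb Q).lt_iff_lt, hg, hg]
          exact hf hab
        · intro a b
          have := hord a b
          rw [← hg a, ← hg b, merge_emb, merge_emb] at this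
          omega
      · left
        refine ⟨hf, ?_⟩
        push Not at hall
        obtain ⟨a₀, ha₀⟩ := hall
        have hw1 : merge Q u (f a₀) = 1 := merge_mem Q u ha₀
        have hge1 : ∀ j, 1 ≤ merge Q u j := by
          intro j
          by_cases h : j ∈ Q
          · rw [merge_mem Q u h]
          · obtain ⟨i, rfl⟩ := exists_emb Q h
            rw [merge_emb]; omega
        have hv1 : v a₀ = 1 := by
          rcases hv12 a₀ with h | h
          · exact h
          · exfalso
            have h1 := (hord 0 a₀).1.2 (by rw [h0, h]; norm_num)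
            have h2 := hge1 (f 0)
            omega
        intro a
        constructor
        · intro ha
          have hwa : merge Q u (f a) = 1 := merge_mem Q u ha
          have := (hord a a₀).2.1 (by rw [hwa, hw1])
          rw [this, hv1]
        · intro ha
          by_contra hn
          have h3 := (hord a a₀).2.2 (by rw [ha, hv1])
          obtain ⟨i, hi⟩ := exists_emb Q hn
          rw [← hi, merge_emb, hw1] at h3
          have := hu1 i
          omega
    · rintro (⟨hf, hmem⟩ | ⟨g, ⟨hg, hord⟩, rfl⟩)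
      · refine ⟨hf, ?_⟩
        have hval1 : ∀ a, v a = 1 → merge Q u (f a) = 1 := fun a ha =>
          merge_mem Q u ((hmem a).2 ha)
        have hval2 : ∀ a, v a = 2 → 2 ≤ merge Q u (f a) := by
          intro a ha
          have : f a ∉ Q := by rw [hmem]; omega
          obtain ⟨i, hi⟩ := exists_emb Q this
          rw [← hi, merge_emb]
          have := hu1 i
          omega
        intro a b
        rcases hv12 a with ha | ha <;> rcases hv12 b with hb | hb
        · rw [hval1 a ha, hval1 b hb, ha, hb]; simp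
        · have h1 := hval1 a ha
          have h2 := hval2 b hb
          rw [h1, ha, hb]
          constructor
          · constructor
            · intro _; norm_num
            · intro _; omega
          · constructor
            · intro h; omega
            · intro h; omega
        · have h1 := hval2 a ha
          have h2 := hval1 b hb
          rw [h2, ha, hb]
          constructor
          · constructor
            · intro h; omega
            · intro h; omega
          · constructor
            · intro h; omega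
            · intro h; omega
        · have hac : a = c := by by_contra h; have := hv' a h; omega
          have hbc : b = c := by by_contra h; have := hv' b h; omega
          subst hac; subst hbc; simp
      · refine ⟨fun a b hab => (emb Q).strictMono (hg hab), ?_⟩
        intro a b
        rw [merge_emb, merge_emb]
        have := hord a b
        omega
  · rw [Finset.disjoint_left]
    intro f hf hf'
    simp only [hA, Finset.mem_filter, Finset.mem_univ, true_and] at hf
    obtain ⟨g, -, rfl⟩ := Finset.mem_image.1 hf'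
    exact emb_not_mem Q (g 0) ((hf.2 0).2 h0)

/-- reversal of an initial segment -/
def rho (q i : Fin (n + 1)) : Fin (n + 1) :=
  if i ≤ q then ⟨q.1 - i.1, lt_of_le_of_lt (Nat.sub_le _ _) q.2⟩ else i

lemma rho_val {q i : Fin (n + 1)} (h : i ≤ q) : (rho q i : ℕ) = q - i := by
  unfold rho; rw [if_pos h]

lemma rho_le {q i : Fin (n + 1)} (h : i ≤ q) : rho q i ≤ q := by
  rw [Fin.le_def, rho_val h]; exact Nat.sub_le _ _

lemma rho_rho {q i : Fin (n + 1)} (h : i ≤ q) : rho q (rho q i) = i := by
  apply Fin.ext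
  rw [rho_val (rho_le h), rho_val h]
  have : (i : ℕ) ≤ q := h
  omega

/-- the last position of the letter 1 -/
def mx (Q : QQ n) : Fin (n + 1) := Q.1.max' ⟨0, Q.2⟩

lemma le_mx (Q : QQ n) {i : Fin (n + 1)} (hi : i ∈ Q.1) : i ≤ mx Q := Finset.le_max' _ _ hi

/-- reversed set of positions -/
def revQ (Q : QQ n) : QQ n := ⟨Q.1.image (rho (mx Q)), by
  rw [Finset.mem_image]
  refine ⟨mx Q, Finset.max'_mem _ _, ?_⟩
  apply Fin.ext
  rw [rho_val le_rfl]
  simp⟩

lemma mx_revQ (Q : QQ n) : mx (revQ Q) = mx Q := by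
  apply le_antisymm
  · apply Finset.max'_le
    intro y hy
    obtain ⟨i, hi, rfl⟩ := Finset.mem_image.1 hy
    exact rho_le (le_mx Q hi)
  · apply Finset.le_max'
    refine Finset.mem_image.2 ⟨0, Q.2, ?_⟩
    apply Fin.ext
    rw [rho_val (Fin.zero_le _)]
    simp

lemma mem_revQ (Q : QQ n) {i : Fin (n + 1)} (hi : i ≤ mx Q) :
    rho (mx Q) i ∈ (revQ Q).1 ↔ i ∈ Q.1 := by
  constructor
  · intro h
    obtain ⟨j, hj, hji⟩ := Finset.mem_image.1 h
    have := congrArg (rho (mx Q)) hji
    rw [rho_rho (le_mx Q hj), rho_rho hi] at this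
    rwa [← this]
  · intro h
    exact Finset.mem_image.2 ⟨i, h, rfl⟩

lemma revQ_revQ (Q : QQ n) : revQ (revQ Q) = Q := by
  apply Subtype.ext
  ext i
  constructor
  · intro h
    have hi : i ≤ mx (revQ Q) := by
      have := le_mx _ h
      rwa [mx_revQ] at this
    obtain ⟨j, hj, hji⟩ := Finset.mem_image.1 h
    obtain ⟨l, hl, hlj⟩ := Finset.mem_image.1 hj
    rw [mx_revQ] at hji
    rw [← hji, ← hlj, rho_rho (le_mx Q hl)]
    exact hl
  · intro h
    have h1 : rho (mx Q) i ∈ (revQ Q).1 := (mem_revQ Q (le_mx Q h)).2 h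
    refine Finset.mem_image.2 ⟨_, h1, ?_⟩
    rw [mx_revQ, rho_rho (le_mx Q h)]

lemma card_revQ (Q : QQ n) : (revQ Q).1.card = Q.1.card := by
  apply Finset.card_image_of_injOn
  intro i hi j hj hij
  have := congrArg (rho (mx Q)) hij
  rwa [rho_rho (le_mx Q hi), rho_rho (le_mx Q hj)] at this

lemma cc_le (v : Fin 4 → ℕ) (hv : v 3 = 1) (Q : QQ n) :
    cc v Q.1 ≤ cc (fun a => v a.rev) (revQ Q).1 := by
  classical
  unfold cc
  refine Finset.card_le_card_of_injOn (fun f a => rho (mx Q) (f a.rev)) ?_ ?_
  · intro f hf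
    simp only [Finset.coe_filter, Finset.mem_univ, true_and, Set.mem_ofPred_eq] at hf ⊢
    obtain ⟨hf, hmem⟩ := hf
    have hle : ∀ a, f a ≤ mx Q := fun a =>
      (hf.monotone (Fin.le_last a)).trans (le_mx Q ((hmem 3).2 hv))
    refine ⟨?_, ?_⟩
    · intro a b hab
      have h1 : f b.rev < f a.rev := hf (Fin.rev_lt_rev.2 hab)
      rw [Fin.lt_def, rho_val (hle _), rho_val (hle _)]
      have h2 : ((f b.rev : Fin (n + 1)) : ℕ) < f a.rev := h1
      have h3 : ((f a.rev : Fin (n + 1)) : ℕ) ≤ mx Q := hle _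
      omega
    · intro a
      rw [mem_revQ Q (hle _), hmem]
  · intro f hf g hg hfg
    simp only [Finset.coe_filter, Finset.mem_univ, true_and, Set.mem_ofPred_eq] at hf hg
    have hlef : ∀ a, f a ≤ mx Q := fun a =>
      (hf.1.monotone (Fin.le_last a)).trans (le_mx Q ((hf.2 3).2 hv))
    have hleg : ∀ a, g a ≤ mx Q := fun a =>
      (hg.1.monotone (Fin.le_last a)).trans (le_mx Q ((hg.2 3).2 hv))
    funext a
    have := congrArg (rho (mx Q)) (congrFun hfg a.rev)
    simp only [Fin.rev_rev] at this
    rwa [rho_rho (hlef _), rho_rho (hleg _)] at this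

lemma cc_eq (Q : QQ n) : cc v2 (revQ Q).1 = cc v1 Q.1 := by
  have e1 : (fun a : Fin 4 => v1 a.rev) = v2 := by funext a; fin_cases a <;> rfl
  have e2 : (fun a : Fin 4 => v2 a.rev) = v1 := by funext a; fin_cases a <;> rfl
  apply le_antisymm
  · have := cc_le v2 rfl (revQ Q)
    rwa [e2, revQ_revQ] at this
  · have := cc_le v1 rfl Q
    rwa [e1] at this

end Split

lemma transport {r s : ℕ} (h : r = s)
    (H : ∃ e : RG r ≃ RG r, ∀ w, copies v2 (e w).1 = copies v1 w.1) :
    ∃ e : RG r ≃ RG s, ∀ w, copies v2 (e w).1 = copies v1 w.1 := by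
  subst h; exact H

/-- a bijection on restricted growth functions taking copies of 1121 to copies of 1211 -/
theorem main (n : ℕ) : ∃ e : RG n ≃ RG n, ∀ w, copies v2 (e w).1 = copies v1 w.1 := by
  classical
  induction n using Nat.strong_induction_on with
  | _ n ih =>
    cases n with
    | zero =>
      refine ⟨Equiv.refl _, fun w => ?_⟩
      have h : ∀ v : Fin 4 → ℕ, copies v w.1 = 0 := by
        intro v
        unfold copies
        rw [Finset.card_eq_zero, Finset.filter_eq_empty_iff]
        intro f _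
        exact (f 0).elim0
      simp only [Equiv.refl_apply]
      rw [h, h]
    | succ n =>
      have hQ : ∀ Q : QQ n, ∃ e : RG ((Q.1)ᶜ.card) ≃ RG (((revQ Q).1)ᶜ.card),
          ∀ w, copies v2 (e w).1 = copies v1 w.1 := by
        intro Q
        apply transport
        · rw [Finset.card_compl, Finset.card_compl, card_revQ]
        · apply ih
          rw [Finset.card_compl, Fintype.card_fin]
          have : 0 < Q.1.card := Finset.card_pos.2 ⟨0, Q.2⟩
          omega
      choose E hE using hQ
      let rv : QQ n ≃ QQ n := ⟨revQ, revQ, revQ_revQ, revQ_revQ⟩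
      let M := Equiv.ofBijective _ (merge_bijective (n := n))
      refine ⟨M.symm.trans ((Equiv.sigmaCongr rv E).trans M), ?_⟩
      intro w
      obtain ⟨⟨Q, u⟩, rfl⟩ := M.surjective w
      simp only [Equiv.trans_apply, Equiv.symm_apply_apply]
      have h1 : (M ⟨Q, u⟩).1 = merge Q.1 u.1 := rfl
      have h2 : (M ((Equiv.sigmaCongr rv E) ⟨Q, u⟩)).1 = merge (revQ Q).1 (E Q u).1 := rfl
      rw [h1, h2, copies_merge v2 good2 _ _ (E Q u).2, copies_merge v1 good1 _ _ u.2, cc_eq, hE]

lemma le_of_RGF {n : ℕ} {w : Fin n → ℕ} (h : IsRGF w) : ∀ i : Fin n, w i ≤ (i : ℕ) + 1 := by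
  intro i
  induction i using WellFoundedLT.induction with
  | _ i ih =>
    refine (h i).2.trans ?_
    rw [add_comm]
    apply Nat.succ_le_succ
    apply Finset.sup_le
    intro j hj
    have hj' : j < i := by simpa using hj
    exact (ih j hj').trans hj'

/-- `R n k v` is finite, so its `ncard` is its number of elements. -/
lemma R_finite {m : ℕ} (n k : ℕ) (v : Fin m → ℕ) : (R n k v).Finite := by
  apply Set.Finite.subset (Set.Finite.pi' (t := fun _ : Fin n => Set.Iic (n + 1))
    (fun _ => Set.finite_Iic _))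
  intro w hw i
  have := le_of_RGF hw.1 i
  have := i.2
  simp only [Set.mem_Iic]
  omega

/-- There are two distinct patterns (1121 and 1211) of the same length which are `k`-Wilf
equivalent for every `k`. -/
theorem result : ∃ v w : Fin 4 → ℕ, IsRGF v ∧ IsRGF w ∧ v ≠ w ∧
    ∀ n k : ℕ, (R n k v).Finite ∧ (R n k w).Finite ∧ (R n k v).ncard = (R n k w).ncard := by
  refine ⟨v1, v2, ?_, ?_, ?_, ?_⟩
  · unfold IsRGF v1; decide
  · unfold IsRGF v2; decide
  · decide
  · intro n k
    refine ⟨R_finite n k v1, R_finite n k v2, ?_⟩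
    obtain ⟨e, he⟩ := main n
    refine Set.ncard_congr (fun w hw => (e ⟨w, hw.1⟩).1) ?_ ?_ ?_
    · intro w hw
      exact ⟨(e ⟨w, hw.1⟩).2, by rw [he]; exact hw.2⟩
    · intro w w' hw hw' h
      have := e.injective (Subtype.ext h)
      exact congrArg Subtype.val this
    · intro w hw
      refine ⟨(e.symm ⟨w, hw.1⟩).1, ⟨(e.symm ⟨w, hw.1⟩).2, ?_⟩, ?_⟩
      · rw [← he, Equiv.apply_symm_apply]; exact hw.2
      · simp

end Pool.Agent.Results.MP_2348bc_co.AllKWilf
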